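import Mathlib
import Pool.Graph.R_seed8.H764R3.Tree

/-! The tree of the library with guessed codes `h δ i`, `i` in a countable set, at each limit point. -/

set_option autoImplicit false

open Cardinal Order Set Pool.Agent.H764R3.Stat
open Pool.Agent.H764R3.Tree (Code Inc K stat_h Code.exists_ub)

namespace Pool.Agent.H2.DP

theorem mk_code : #Code = (2 : Cardinal.{0}) ^ continuum.{0} := by
  have h1 : #(Set (ℕ → Bool)) = (2 : Cardinal.{0}) ^ continuum.{0} := by simp
  have h2 : #((ℕ → Bool) → Bool) = (2 : Cardinal.{0}) ^ continuum.{0} := by simp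
  apply le_antisymm
  · have h3 : #Code ≤ #(Set (ℕ → Bool) × ((ℕ → Bool) → Bool)) := by
      refine ⟨⟨fun c => (c.dom, c.f), fun c d h => ?_⟩⟩
      cases c; cases d
      simp only [Prod.mk.injEq] at h
      obtain ⟨rfl, rfl⟩ := h
      rfl
    refine h3.trans ?_
    rw [mk_prod, lift_id, lift_id, h1, h2]
    refine (mul_eq_self ?_).le
    exact aleph0_le_continuum.trans (cantor _).le
  · rw [← h2]
    exact ⟨⟨fun f => ⟨∅, countable_empty, f⟩, fun f g h => congrArg Code.f h⟩⟩

theorem mk_arrow_code (I : Type) [Countable I] : #(I → Code) ≤ #Code := by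
  rw [mk_arrow, lift_id, lift_id, mk_code]
  calc ((2 : Cardinal.{0}) ^ continuum.{0}) ^ #I
      ≤ ((2 : Cardinal.{0}) ^ continuum.{0}) ^ (ℵ₀ : Cardinal.{0}) :=
        power_le_power_left (power_ne_zero _ two_ne_zero) mk_le_aleph0
    _ = (2 : Cardinal.{0}) ^ continuum.{0} := by
        rw [← power_mul]
        congr 1
        exact mul_eq_left aleph0_le_continuum aleph0_le_continuum aleph0_ne_zero

theorem exists_hh (I : Type) [Countable I] :
    ∃ f : K → I → Code, ∀ c, IsStat (C := Code) {δ : K | f δ = c} := by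
  have h1 : #(I → Code) ≤ #Code := mk_arrow_code I
  obtain ⟨g⟩ := h1
  have hs := Function.invFun_surjective g.injective
  refine ⟨fun δ => Function.invFun g (Pool.Agent.H764R3.Tree.h δ), fun c => ?_⟩
  obtain ⟨a, ha⟩ := hs c
  refine (stat_h a).mono ?_
  intro δ hδ
  have hδ' : Pool.Agent.H764R3.Tree.h δ = a := hδ
  show Function.invFun g (Pool.Agent.H764R3.Tree.h δ) = c
  rw [hδ', ha]

/-- The guessed codes. -/
noncomputable def hh (I : Type) [Countable I] : K → I → Code := (exists_hh I).choose

theorem stat_hh (I : Type) [Countable I] (c : I → Code) :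
    IsStat (C := Code) {δ : K | hh I δ = c} := (exists_hh I).choose_spec c

/-- Nodes of the tree: closed subsets of `K` with a last element, with increasing labels, such that
the labels below a limit point `δ` are below one of the codes `h δ i`. -/
structure Node (I : Type) [Countable I] where
  y : K → Option Code
  top : K
  htop : y top ≠ none
  hle : ∀ k, y k ≠ none → k ≤ top
  mono : ∀ j k a b, y j = some a → y k = some b → j ≤ k → a ≤ b
  lim : ∀ η : ℕ → K, StrictMono η → (∀ n, y (η n) ≠ none) → ∀ δ, IsLUB (range η) δ →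
    y δ ≠ none ∧ ∃ i : I, ∀ n a, y (η n) = some a → a ≤ hh I δ i

variable {I : Type} [Countable I]

instance : LE (Node I) := ⟨fun s t => ∀ k ≤ s.top, s.y k = t.y k⟩

theorem Node.le_def {s t : Node I} : s ≤ t ↔ ∀ k ≤ s.top, s.y k = t.y k := Iff.rfl

theorem Node.top_le {s t : Node I} (h : s ≤ t) : s.top ≤ t.top :=
  t.hle _ (by rw [← h s.top le_rfl]; exact s.htop)

theorem Node.ext' {s t : Node I} (h : s.y = t.y) : s = t := by
  have h1 : s.top = t.top := by
    apply le_antisymm
    · exact t.hle _ (by rw [← h]; exact s.htop)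
    · exact s.hle _ (by rw [h]; exact t.htop)
  cases s; cases t
  simp only at h h1
  subst h h1
  rfl

instance : PartialOrder (Node I) where
  le_refl s := fun k _ => rfl
  le_trans s t u h1 h2 := fun k hk => (h1 k hk).trans (h2 k (hk.trans (Node.top_le h1)))
  le_antisymm s t h1 h2 := by
    have h3 : s.top = t.top := le_antisymm (Node.top_le h1) (Node.top_le h2)
    apply Node.ext'
    funext k
    by_cases hk : k ≤ s.top
    · exact h1 k hk
    · have h4 : s.y k = none := by
        by_contra h5
        exact hk (s.hle k h5)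
      have h5 : t.y k = none := by
        by_contra h5
        exact hk (h3 ▸ t.hle k h5)
      rw [h4, h5]

/-- The last label of a node. -/
noncomputable def Node.code (s : Node I) : Code := (Option.ne_none_iff_exists'.1 s.htop).choose

theorem Node.code_spec (s : Node I) : s.y s.top = some s.code :=
  (Option.ne_none_iff_exists'.1 s.htop).choose_spec

theorem Node.le_code (s : Node I) {k : K} {a : Code} (hk : s.y k = some a) : a ≤ s.code :=
  s.mono k s.top a s.code hk s.code_spec (s.hle k (by rw [hk]; simp))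

theorem Node.code_mono {s t : Node I} (h : s ≤ t) : s.code ≤ t.code := by
  apply t.le_code (k := s.top)
  rw [← h s.top le_rfl]
  exact s.code_spec

/-- If two nodes have a common extension and equal tops, they are equal. -/
theorem Node.eq_of_le {s t u : Node I} (hs : s ≤ u) (ht : t ≤ u) (h : s.top = t.top) : s = t := by
  apply le_antisymm
  · intro k hk
    rw [hs k hk, ht k (h ▸ hk)]
  · intro k hk
    rw [hs k (h ▸ hk), ht k hk]

theorem Node.le_of_top_le {s t u : Node I} (hs : s ≤ u) (ht : t ≤ u) (h : s.top ≤ t.top) : s ≤ t := by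
  intro k hk
  rw [hs k hk, ht k (hk.trans h)]

/-- Adding one new point on top. -/
theorem Node.exists_succ (s : Node I) (β : K) (hβ : s.top < β) (a : Code) (ha : s.code ≤ a) :
    ∃ t : Node I, s ≤ t ∧ t.top = β ∧ t.code = a ∧ (∀ k, t.y k ≠ none → k = β ∨ s.y k ≠ none) ∧
      (∀ k, s.y k ≠ none → t.y k ≠ none) := by
  classical
  have hne : ∀ k ≤ s.top, k ≠ β := fun k hk => (hk.trans_lt hβ).ne
  let y : K → Option Code := Function.update s.y β (some a)
  have hyβ : y β = some a := Function.update_self ..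
  have hy : ∀ k, k ≠ β → y k = s.y k := fun k hk => Function.update_of_ne hk _ _
  let t : Node I :=
    { y := y
      top := β
      htop := by rw [hyβ]; simp
      hle := by
        intro k hk
        by_cases hkβ : k = β
        · exact hkβ.le
        · rw [hy k hkβ] at hk
          exact (s.hle k hk).trans hβ.le
      mono := by
        intro j k b c hj hk hjk
        by_cases hkβ : k = β
        · have hc : c = a := by
            rw [hkβ, hyβ] at hk
            exact (Option.some.inj hk).symm
          subst hc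
          by_cases hjβ : j = β
          · have hb : b = c := by
              rw [hjβ, hyβ] at hj
              exact (Option.some.inj hj).symm
            exact hb.le
          · rw [hy j hjβ] at hj
            exact (s.le_code hj).trans ha
        · have h1 : k ≤ s.top := s.hle k (by rw [← hy k hkβ, hk]; simp)
          have hjβ : j ≠ β := hne j (hjk.trans h1)
          rw [hy j hjβ] at hj
          rw [hy k hkβ] at hk
          exact s.mono j k b c hj hk hjk
      lim := by
        intro η hη hn δ hδ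
        have h1 : ∀ n, η n ≠ β := by
          intro n hnβ
          have h2 : η (n + 1) ≤ β := by
            by_cases h3 : η (n + 1) = β
            · exact h3.le
            · have := hn (n + 1)
              rw [hy _ h3] at this
              exact (s.hle _ this).trans hβ.le
          have h3 := hη (Nat.lt_succ_self n)
          rw [hnβ] at h3
          exact absurd h3 (not_lt.2 h2)
        have h2 : ∀ n, s.y (η n) ≠ none := fun n => by rw [← hy _ (h1 n)]; exact hn n
        have h3 := s.lim η hη h2 δ hδ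
        have h4 : δ ≠ β := hne δ (s.hle δ h3.1)
        obtain ⟨i, hi⟩ := h3.2
        refine ⟨by rw [hy _ h4]; exact h3.1, i, fun n b hb => ?_⟩
        rw [hy _ (h1 n)] at hb
        exact hi n b hb }
  have ht : t.y = y := rfl
  refine ⟨t, ?_, rfl, ?_, ?_, ?_⟩
  · intro k hk
    rw [ht, hy k (hne k hk)]
  · have h1 : t.y t.top = some t.code := t.code_spec
    have h2 : t.y t.top = some a := hyβ
    rw [h1] at h2
    exact Option.some.inj h2
  · intro k hk
    by_cases hkβ : k = β
    · exact Or.inl hkβ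
    · right
      rw [ht, hy k hkβ] at hk
      exact hk
  · intro k hk
    rw [ht, hy k (hne k (s.hle k hk))]
    exact hk

/-- Limits. -/
theorem Node.exists_lim (s : ℕ → Node I) (hs : ∀ n, s n ≤ s (n + 1)) (δ : K)
    (h1 : ∀ n, (s n).top < δ) (h2 : ∀ β < δ, ∃ n, β ≤ (s n).top)
    (i₀ : I) (h3 : ∀ n, (s n).code ≤ hh I δ i₀) : ∃ t : Node I, ∀ n, s n ≤ t := by
  classical
  have hm : Monotone s := monotone_nat_of_le_succ hs
  let y : K → Option Code := fun k =>
    if hk : ∃ n, k ≤ (s n).top then (s hk.choose).y k else if k = δ then some (hh I δ i₀) else none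
  have hy1 : ∀ n k, k ≤ (s n).top → y k = (s n).y k := by
    intro n k hk
    have hex : ∃ n, k ≤ (s n).top := ⟨n, hk⟩
    show (if hk : ∃ n, k ≤ (s n).top then (s hk.choose).y k else _) = _
    rw [dif_pos hex]
    rcases le_total n hex.choose with h4 | h4
    · exact (hm h4 k hk).symm
    · exact hm h4 k hex.choose_spec
  have hδ : ¬ ∃ n, δ ≤ (s n).top := by
    rintro ⟨n, hn⟩
    exact absurd hn (not_le.2 (h1 n))
  have hy2 : y δ = some (hh I δ i₀) := by
    show (if hk : ∃ n, δ ≤ (s n).top then (s hk.choose).y δ else _) = _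
    rw [dif_neg hδ, if_pos rfl]
  have hy3 : ∀ k, y k ≠ none → k ≤ δ := by
    intro k hk
    by_contra hcon
    push Not at hcon
    have hex : ¬ ∃ n, k ≤ (s n).top := by
      rintro ⟨n, hn⟩
      exact absurd (hcon.trans_le hn) (not_lt.2 (h1 n).le)
    apply hk
    show (if hk : ∃ n, k ≤ (s n).top then (s hk.choose).y k else _) = _
    rw [dif_neg hex, if_neg hcon.ne']
  have hy4 : ∀ k a, y k = some a → a ≤ hh I δ i₀ := by
    intro k a hk
    rcases (hy3 k (by rw [hk]; simp)).eq_or_lt with h4 | h4
    · rw [h4, hy2] at hk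
      exact (Option.some.inj hk).ge
    · obtain ⟨n, hn⟩ := h2 k h4
      rw [hy1 n k hn] at hk
      exact ((s n).le_code hk).trans (h3 n)
  refine ⟨⟨y, δ, by rw [hy2]; simp, hy3, ?_, ?_⟩, fun n k hk => (hy1 n k hk).symm⟩
  · intro j k a b hj hk hjk
    rcases (hy3 k (by rw [hk]; simp)).eq_or_lt with h4 | h4
    · have hb : b = hh I δ i₀ := by
        rw [h4, hy2] at hk
        exact (Option.some.inj hk).symm
      rw [hb]
      exact hy4 j a hj
    · obtain ⟨n, hn⟩ := h2 k h4
      rw [hy1 n k hn] at hk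
      rw [hy1 n j (hjk.trans hn)] at hj
      exact (s n).mono j k a b hj hk hjk
  · intro η hη hn δ' hδ'
    have h4 : δ' ≤ δ := hδ'.2 (by rintro _ ⟨n, rfl⟩; exact hy3 _ (hn n))
    rcases h4.eq_or_lt with h5 | h5
    · subst h5
      exact ⟨by rw [hy2]; simp, i₀, fun n a ha => hy4 _ a ha⟩
    · obtain ⟨m, hm'⟩ := h2 δ' h5
      have h6 : ∀ n, η n ≤ (s m).top := fun n => (hδ'.1 ⟨n, rfl⟩).trans hm'
      have h7 := (s m).lim η hη (fun n => by rw [← hy1 m _ (h6 n)]; exact hn n) δ' hδ'
      obtain ⟨i, hi⟩ := h7.2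
      refine ⟨by rw [hy1 m _ hm']; exact h7.1, i, fun n a ha => ?_⟩
      rw [hy1 m _ (h6 n)] at ha
      exact hi n a ha

/-- A one-point node. -/
theorem Node.exists_single (β : K) (a : Code) :
    ∃ t : Node I, t.top = β ∧ t.code = a ∧ ∀ k, t.y k ≠ none → k = β := by
  classical
  have hk' : ∀ k (b : Code), Function.update (fun _ : K => (none : Option Code)) β (some a) k = some b →
      k = β ∧ b = a := by
    intro k b hk
    by_cases h1 : k = β
    · subst h1
      rw [Function.update_self] at hk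
      exact ⟨rfl, (Option.some.inj hk).symm⟩
    · rw [Function.update_of_ne h1] at hk
      simp at hk
  have hk'' : ∀ k, Function.update (fun _ : K => (none : Option Code)) β (some a) k ≠ none →
      k = β := by
    intro k hk
    obtain ⟨b, hb⟩ := Option.ne_none_iff_exists'.1 hk
    exact (hk' k b hb).1
  let t : Node I :=
    { y := Function.update (fun _ => none) β (some a)
      top := β
      htop := by rw [Function.update_self]; simp
      hle := fun k hk => (hk'' k hk).le
      mono := by
        intro j k b c hj hk _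
        rw [(hk' j b hj).2, (hk' k c hk).2]
      lim := by
        intro η hη hn δ _
        have h0 := hk'' _ (hn 0)
        have h1 := hk'' _ (hn 1)
        have := hη (Nat.lt_succ_self 0)
        rw [h0, h1] at this
        exact absurd this (lt_irrefl _) }
  refine ⟨t, rfl, ?_, hk''⟩
  have h1 : t.y t.top = some t.code := t.code_spec
  exact (hk' _ _ h1).2

instance : Nonempty (Node I) :=
  ⟨(Node.exists_single (Classical.arbitrary K) ⟨∅, countable_empty, fun _ => true⟩).choose⟩

/-! ### Distributivity of the finite powers -/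

section

variable {ι : Type}

/-- Well-founded trees of moves. -/
inductive Tr (I : Type) [Countable I] (ι : Type) : Type
  | leaf : Tr I ι
  | node (η : K) (f : (ι → Node I) → Tr I ι) : Tr I ι

def Tr.child : Tr I ι → (ι → Node I) → Tr I ι
  | .leaf, _ => .leaf
  | .node _ f, t => f t

noncomputable def Tr.bd : Tr I ι → K
  | .leaf => Classical.arbitrary K
  | .node η _ => η

theorem Tr.reach_leaf (tr : Tr I ι) : ∀ (u : ℕ → ι → Node I) (v : ℕ → Tr I ι), v 0 = tr →
    (∀ n, v (n + 1) = (v n).child (u n)) → ∃ n, v n = .leaf := by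
  induction tr with
  | leaf => exact fun u v h _ => ⟨0, h⟩
  | node η f ih =>
    intro u v h h1
    obtain ⟨n, hn⟩ := ih (u 0) (fun n => u (n + 1)) (fun n => v (n + 1))
      (by rw [h1 0, h]; rfl) (fun n => h1 (n + 1))
    exact ⟨n + 1, hn⟩

/-- The tree of moves is a winning strategy (against the codes `φ i`) from the position `n`, `s`. -/
def Valid (O : ℕ → Set (ι → Node I)) (φ : ι → Code) : Tr I ι → ℕ → (ι → Node I) → Prop
  | .leaf, _, s => ¬ ∀ i, (s i).code ≤ φ i
  | .node η f, n, s => ∀ t, s ≤ t → t ∈ O n → (∀ i, η < (t i).top) → Valid O φ (f t) (n + 1) t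

theorem Valid.child {O : ℕ → Set (ι → Node I)} {φ : ι → Code} {tr : Tr I ι} {n : ℕ}
    {s t : ι → Node I} (h : Valid O φ tr n s) (h1 : s ≤ t) (h2 : t ∈ O n)
    (h3 : ∀ i, tr.bd < (t i).top) : Valid O φ (tr.child t) (n + 1) t := by
  cases tr with
  | leaf => exact fun h4 => h fun i => (Node.code_mono (h1 i)).trans (h4 i)
  | node η f => exact h t h1 h2 h3

/-- The other player survives. -/
def Win (O : ℕ → Set (ι → Node I)) (φ : ι → Code) (n : ℕ) (s : ι → Node I) : Prop :=
  ¬ ∃ tr, Valid O φ tr n s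

theorem Win.code_le {O : ℕ → Set (ι → Node I)} {φ : ι → Code} {n : ℕ} {s : ι → Node I}
    (h : Win O φ n s) : ∀ i, (s i).code ≤ φ i := by
  by_contra hcon
  exact h ⟨.leaf, hcon⟩

theorem Win.next {O : ℕ → Set (ι → Node I)} {φ : ι → Code} {n : ℕ} {s : ι → Node I}
    (h : Win O φ n s) (η : K) :
    ∃ t, s ≤ t ∧ t ∈ O n ∧ (∀ i, η < (t i).top) ∧ Win O φ (n + 1) t := by
  classical
  by_contra hcon
  push Not at hcon
  have h1 : ∀ t, ∃ tr, s ≤ t → t ∈ O n → (∀ i, η < (t i).top) → Valid O φ tr (n + 1) t := by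
    intro t
    by_cases h2 : s ≤ t ∧ t ∈ O n ∧ ∀ i, η < (t i).top
    · have h3 := hcon t h2.1 h2.2.1 h2.2.2
      unfold Win at h3
      push Not at h3
      obtain ⟨tr, htr⟩ := h3
      exact ⟨tr, fun _ _ _ => htr⟩
    · exact ⟨.leaf, fun h3 h4 h5 => absurd ⟨h3, h4, h5⟩ h2⟩
  choose f hf using h1
  exact h ⟨.node η f, fun t h2 h3 h4 => hf t h2 h3 h4⟩

theorem exists_above [Finite ι] (s : ι → Node I) (β : K) :
    ∃ t : ι → Node I, s ≤ t ∧ (∀ i, β < (t i).top) := by
  have h1 : ∀ i, ∃ t : Node I, s i ≤ t ∧ β < t.top := by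
    intro i
    obtain ⟨γ, hγ⟩ := exists_gt (max (s i).top β)
    obtain ⟨u, hu1, hu2, -⟩ := (s i).exists_succ γ ((le_max_left _ _).trans_lt hγ) (s i).code le_rfl
    exact ⟨u, hu1, by rw [hu2]; exact (le_max_right _ _).trans_lt hγ⟩
  choose t h2 h3 using h1
  exact ⟨t, h2, h3⟩

theorem exists_code [Finite ι] {O : ℕ → Set (ι → Node I)} (hO : ∀ n s, ∃ t, s ≤ t ∧ t ∈ O n)
    (hOu : ∀ n s t, s ∈ O n → s ≤ t → t ∈ O n) (s₀ : ι → Node I) :
    ∃ φ, Win O φ 0 s₀ := by
  classical
  by_contra hcon
  unfold Win at hcon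
  push Not at hcon
  choose D₀ hD₀ using hcon
  have hstep : ∀ (n : ℕ) (s : ι → Node I) (β : K), ∃ t, s ≤ t ∧ t ∈ O n ∧ ∀ i, β < (t i).top := by
    intro n s β
    obtain ⟨t, h1, h2⟩ := hO n s
    obtain ⟨u, hu1, hu2⟩ := exists_above t β
    exact ⟨u, h1.trans hu1, hOu _ _ _ h2 hu1, hu2⟩
  choose F hF1 hF2 hF3 using hstep
  have hcard : #(ι → Code) ≤ #Code := mk_arrow_code ι
  have hbd : ∀ D : (ι → Code) → Tr I ι, ∃ β : K, ∀ φ, (D φ).bd < β := fun D =>
    bounded hcard fun φ => (D φ).bd
  choose B hB using hbd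
  let st : ℕ → (ι → Node I) × ((ι → Code) → Tr I ι) := fun n => Nat.rec (s₀, D₀) (fun n p =>
    (F n p.1 (B p.2), fun φ => (p.2 φ).child (F n p.1 (B p.2)))) n
  have hst1 : ∀ n, (st (n + 1)).1 = F n (st n).1 (B (st n).2) := fun n => rfl
  have hst2 : ∀ n φ, (st (n + 1)).2 φ = ((st n).2 φ).child (st (n + 1)).1 := fun n φ => rfl
  have hv : ∀ n φ, Valid O φ ((st n).2 φ) n (st n).1 := by
    intro n
    induction n with
    | zero => exact hD₀
    | succ n ih =>
      intro φ
      rw [hst2]
      apply (ih φ).child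
      · rw [hst1]; exact hF1 _ _ _
      · rw [hst1]; exact hF2 _ _ _
      · rw [hst1]; exact fun i => (hB _ φ).trans (hF3 _ _ _ i)
  have hub : ∀ i, ∃ a : Code, ∀ n, ((st n).1 i).code ≤ a := fun i =>
    Code.exists_ub (fun n => ((st n).1 i).code) (fun n => Node.code_mono (by
      rw [hst1]; exact hF1 _ _ _ i))
  choose φ hφ using hub
  obtain ⟨n, hn⟩ := Tr.reach_leaf (D₀ φ) (fun n => (st (n + 1)).1) (fun n => (st n).2 φ) rfl
    (fun n => hst2 n φ)
  have h1 := hv n φ
  rw [hn] at h1
  exact h1 fun i => hφ i n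

/-- The powers of the tree with at most as many factors as there are guessed codes are countably distributive. -/
theorem distributive [Finite ι] (g : ι → I) (hg : Function.Injective g)
    {O : ℕ → Set (ι → Node I)} (hO : ∀ n s, ∃ t, s ≤ t ∧ t ∈ O n)
    (hOu : ∀ n s t, s ∈ O n → s ≤ t → t ∈ O n) (s₀ : ι → Node I) :
    ∃ t, s₀ ≤ t ∧ ∀ n, t ∈ O n := by
  classical
  obtain ⟨φ, hφ⟩ := exists_code hO hOu s₀
  have hnext : ∀ (n : ℕ) (s : ι → Node I) (η : K), ∃ t, Win O φ n s →
      (s ≤ t ∧ t ∈ O n ∧ (∀ i, η < (t i).top) ∧ Win O φ (n + 1) t) := by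
    intro n s η
    by_cases h : Win O φ n s
    · obtain ⟨t, ht⟩ := h.next η
      exact ⟨t, fun _ => ht⟩
    · exact ⟨s, fun h' => absurd h' h⟩
  choose F hF using hnext
  -- positions indexed by lists
  let pos : List K → (ι → Node I) := fun l => List.rec s₀ (fun b l p => F l.length p b) l
  have hpos : ∀ b l, pos (b :: l) = F l.length (pos l) b := fun b l => rfl
  have hwin : ∀ l, Win O φ l.length (pos l) := by
    intro l
    induction l with
    | nil => exact hφ
    | cons b l ih =>
      rw [hpos]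
      exact (hF _ _ _ ih).2.2.2
  have hG : ∀ β : K, ∃ γ, ∀ x : List (Iic β) × ι, (pos (x.1.map Subtype.val) x.2).top < γ := by
    intro β
    apply bounded
    have hne : Nonempty (Iic β) := ⟨⟨β, self_mem_Iic⟩⟩
    rw [mk_prod, lift_id, lift_id, mk_list_eq_max_mk_aleph0]
    refine (mul_le_mul' (max_le (mk_Iic β) al) (show #ι ≤ #Code from
      (Cardinal.mk_le_aleph0 (α := ι)).trans al)).trans ?_
    exact (mul_eq_self al).le
  choose G hG using hG
  have hstat : ∃ δ : K, (∀ i, hh I δ (g i) = φ i) ∧
      (∃ η : ℕ → K, StrictMono η ∧ IsLUB (range η) δ) ∧ ∀ β < δ, G β < δ := by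
    have hne : Nonempty Code := inferInstance
    obtain ⟨δ, h1, h2, h3⟩ := stat_hh I (Function.extend g φ fun _ => Classical.arbitrary Code) G
    refine ⟨δ, fun i => ?_, h2, h3⟩
    have h4 : hh I δ = Function.extend g φ fun _ => Classical.arbitrary Code := h1
    rw [h4, hg.extend_apply]
  obtain ⟨δ, hδφ, ⟨η, hη1, hη2⟩, hδG⟩ := hstat
  -- the play
  let l : ℕ → List K := fun n => Nat.rec [] (fun n l => η n :: l) n
  have hl : ∀ n, l (n + 1) = η n :: l n := fun n => rfl
  have hlen : ∀ n, (l n).length = n := by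
    intro n
    induction n with
    | zero => rfl
    | succ n ih => rw [hl, List.length_cons, ih]
  have hlmem : ∀ n, ∀ k ∈ l n, k ≤ η n := by
    intro n
    induction n with
    | zero => intro k hk; exact absurd hk (List.not_mem_nil)
    | succ n ih =>
      intro k hk
      rw [hl, List.mem_cons] at hk
      rcases hk with rfl | hk
      · exact (hη1 (Nat.lt_succ_self n)).le
      · exact (ih k hk).trans (hη1 (Nat.lt_succ_self n)).le
  have hstep : ∀ n, pos (l n) ≤ pos (l (n + 1)) ∧ pos (l (n + 1)) ∈ O n ∧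
      ∀ i, η n < (pos (l (n + 1)) i).top := by
    intro n
    have h1 := hF _ _ (η n) (hwin (l n))
    rw [hl, hpos]
    refine ⟨h1.1, ?_, h1.2.2.1⟩
    have h2 := h1.2.1
    rw [hlen] at h2 ⊢
    exact h2
  have hηδ : ∀ n, η n < δ := fun n => (hη1 (Nat.lt_succ_self n)).trans_le (hη2.1 ⟨n + 1, rfl⟩)
  have htop : ∀ i n, (pos (l n) i).top < δ := by
    intro i n
    refine lt_trans ?_ (hδG (η n) (hηδ n))
    have h1 := hG (η n) ((l n).attach.map fun k => ⟨k.1, hlmem n k.1 k.2⟩, i)
    have h2 : ((l n).attach.map fun k => (⟨k.1, hlmem n k.1 k.2⟩ : Iic (η n))).map Subtype.val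
        = l n := by
      rw [List.map_map]
      exact List.attach_map_subtype_val (l n)
    simp only [h2] at h1
    exact h1
  have hlimit : ∀ i, ∃ t : Node I, ∀ n, pos (l n) i ≤ t := fun i =>
    Node.exists_lim (fun n => pos (l n) i) (fun n => (hstep n).1 i) δ (htop i) (by
      intro β hβ
      obtain ⟨_, ⟨n, rfl⟩, hn⟩ := (lt_isLUB_iff hη2).1 hβ
      exact ⟨n + 1, (hn.trans ((hstep n).2.2 i)).le⟩) (g i) (fun n => by
        rw [hδφ i]
        exact (hwin (l n)).code_le i)
  choose t ht using hlimit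
  exact ⟨t, fun i => ht i 0, fun n => hOu _ _ _ (hstep n).2.1 fun i => ht i (n + 1)⟩

end

end Pool.Agent.H2.DP
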