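import Mathlib
import Pool.Agent.H2.DP.Tree

set_option autoImplicit false

open Cardinal Order Set Topology Pool.Agent.H764R3.Stat
open Pool.Agent.H764R3.Tree (Code Inc K)

namespace Pool.Agent.H2.DP

variable {I : Type} [Countable I]

open Classical in
/-- Characteristic function of the set of the predecessors. -/
noncomputable def emb (t s : Node I) : Bool := decide (s ≤ t)

theorem emb_iff {s t u : Node I} : emb u s = emb t s ↔ (s ≤ u ↔ s ≤ t) := by
  unfold emb
  simp

theorem emb_true {s t : Node I} : emb t s = true ↔ s ≤ t := by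
  unfold emb
  simp

theorem emb_injective : Function.Injective (emb (I := I)) := by
  intro s t h
  have h1 := emb_iff.1 (congrFun h s)
  have h2 := emb_iff.1 (congrFun h t)
  exact le_antisymm (h1.1 le_rfl) (h2.2 le_rfl)

/-- The topology generated by the cones and their complements. -/
noncomputable instance : TopologicalSpace (Node I) := TopologicalSpace.induced (emb (I := I)) inferInstance

theorem isEmbedding_emb : IsEmbedding (emb (I := I)) := ⟨⟨rfl⟩, emb_injective⟩

instance : T35Space (Node I) := by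
  have := (isEmbedding_emb (I := I)).isInducing.completelyRegularSpace
  have := (isEmbedding_emb (I := I)).t2Space
  exact {}

theorem isClopen_cone (s : Node I) : IsClopen {u : Node I | s ≤ u} := by
  have h1 : {u : Node I | s ≤ u} = emb ⁻¹' ((fun f : Node I → Bool => f s) ⁻¹' {true}) := by
    ext u
    simp [emb_true]
  rw [h1]
  exact (IsClopen.preimage (isClopen_discrete _) (continuous_apply s)).preimage
    isEmbedding_emb.continuous

theorem exists_finset {U : Set (Node I)} (hU : IsOpen U) {t : Node I} (ht : t ∈ U) :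
    ∃ F : Finset (Node I), ∀ u, (∀ s ∈ F, (s ≤ u ↔ s ≤ t)) → u ∈ U := by
  obtain ⟨V, hV, rfl⟩ := isOpen_induced_iff.1 hU
  obtain ⟨F, w, hw, hF⟩ := isOpen_pi_iff.1 hV _ ht
  refine ⟨F, fun u hu => hF ?_⟩
  intro s hs
  rw [emb_iff.2 (hu s hs)]
  exact (hw s hs).2

theorem isTopologicalBasis_isClopen :
    TopologicalSpace.IsTopologicalBasis {U : Set (Node I) | IsClopen U} := by
  apply TopologicalSpace.isTopologicalBasis_of_isOpen_of_nhds
  · exact fun U hU => hU.isOpen
  · intro t U ht hU
    obtain ⟨F, hF⟩ := exists_finset hU ht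
    refine ⟨⋂ s ∈ F, {u : Node I | (s ≤ u ↔ s ≤ t)}, ?_, ?_, ?_⟩
    · refine isClopen_biInter_finset fun s _ => ?_
      by_cases h : s ≤ t
      · have : {u : Node I | (s ≤ u ↔ s ≤ t)} = {u | s ≤ u} := by
          ext u; simp [h]
        rw [this]
        exact isClopen_cone s
      · have : {u : Node I | (s ≤ u ↔ s ≤ t)} = {u | s ≤ u}ᶜ := by
          ext u; simp [h]
        rw [this]
        exact (isClopen_cone s).compl
    · simp
    · intro u hu
      simp only [mem_iInter, mem_ofPred_eq] at hu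
      exact hF u hu

/-- The cones form a `π`-base. -/
theorem exists_cone {U : Set (Node I)} (hU : IsOpen U) {t : Node I} (ht : t ∈ U) :
    ∃ r, t ≤ r ∧ ¬ r ≤ t ∧ ∀ u, r ≤ u → u ∈ U := by
  classical
  obtain ⟨F, hF⟩ := exists_finset hU ht
  have hfin : ∃ β : K, t.top < β ∧ ∀ s ∈ F, s.top < β := by
    have : ∃ β : K, ∀ s ∈ insert t F, s.top ≤ β := by
      classical
      refine ⟨(insert t F).sup' ⟨t, Finset.mem_insert_self _ _⟩ Node.top, fun s hs => ?_⟩
      exact Finset.le_sup' (f := Node.top) hs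
    obtain ⟨β, hβ⟩ := this
    obtain ⟨γ, hγ⟩ := exists_gt β
    exact ⟨γ, (hβ t (Finset.mem_insert_self _ _)).trans_lt hγ,
      fun s hs => (hβ s (Finset.mem_insert_of_mem hs)).trans_lt hγ⟩
  obtain ⟨β, hβ1, hβ2⟩ := hfin
  obtain ⟨r, h1, h2, -, h4, -⟩ := t.exists_succ β hβ1 t.code le_rfl
  refine ⟨r, h1, fun h => ?_, fun u hu => hF u fun s hs => ⟨fun hsu => ?_, fun hst => ?_⟩⟩
  · have := Node.top_le h
    rw [h2] at this
    exact absurd hβ1 (not_lt.2 this)
  · rcases le_total s.top t.top with h5 | h5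
    · exact Node.le_of_top_le hsu (h1.trans hu) h5
    · -- `t ≤ s`, so the top of `s` is the top of `t`
      have h6 : s.top ≤ r.top := by rw [h2]; exact (hβ2 s hs).le
      have h7 : s ≤ r := Node.le_of_top_le hsu hu h6
      have h8 : r.y s.top ≠ none := by rw [← h7 s.top le_rfl]; exact s.htop
      rcases h4 _ h8 with h9 | h9
      · exact absurd (hβ2 s hs) (by rw [h9]; exact lt_irrefl _)
      · have h10 : s.top = t.top := le_antisymm (t.hle _ h9) h5
        exact (Node.eq_of_le hsu (h1.trans hu) h10).le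
  · exact (hst.trans h1).trans hu

/-- A space is d-separable if it has a dense subset which is a countable union of discrete
subspaces. -/
def LittleD (X : Type) [TopologicalSpace X] : Prop :=
  ∃ F : ℕ → Set X, (∀ n, DiscreteTopology (F n)) ∧ Dense (⋃ n, F n)

/-- A space is D-separable if for every sequence of dense subsets one can choose discrete subsets
of them whose union is dense. -/
def BigD (X : Type) [TopologicalSpace X] : Prop :=
  ∀ D : ℕ → Set X, (∀ n, Dense (D n)) →
    ∃ F : ℕ → Set X, (∀ n, F n ⊆ D n ∧ DiscreteTopology (F n)) ∧ Dense (⋃ n, F n)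

theorem isOpen_cones {ι : Type} [Finite ι] (s : ι → Node I) : IsOpen {u : ι → Node I | s ≤ u} := by
  have h1 : {u : ι → Node I | s ≤ u} = ⋂ i, (fun u : ι → Node I => u i) ⁻¹' {v | s i ≤ v} := by
    ext u
    simp [Pi.le_def]
  rw [h1]
  exact isOpen_iInter_of_finite fun i => (isClopen_cone (s i)).isOpen.preimage (continuous_apply i)

/-- In the powers with at most as many factors as there are guessed codes all countable unions of
discrete subspaces are nowhere dense. -/
theorem nowhereDense {ι : Type} [Finite ι] [Nonempty ι] (g : ι → I)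
    (hg : Function.Injective g) (F : ℕ → Set (ι → Node I)) (hF : ∀ n, DiscreteTopology (F n)) :
    IsNowhereDense (⋃ n, F n) := by
  classical
  have hcone : ∀ {U : Set (ι → Node I)} {t : ι → Node I}, IsOpen U → t ∈ U →
      ∃ r, t ≤ r ∧ (∀ i, ¬ r i ≤ t i) ∧ ∀ u, r ≤ u → u ∈ U := by
    intro U t hU ht
    obtain ⟨S, w, hw, hS⟩ := isOpen_pi_iff.1 hU _ ht
    have hc : ∀ i, ∃ r, t i ≤ r ∧ ¬ r ≤ t i ∧ (i ∈ S → ∀ u, r ≤ u → u ∈ w i) := by
      intro i
      by_cases hi : i ∈ S
      · obtain ⟨r, hr1, hr2, hr3⟩ := exists_cone (hw i hi).1 (hw i hi).2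
        exact ⟨r, hr1, hr2, fun _ => hr3⟩
      · obtain ⟨r, hr1, hr2, hr3⟩ := exists_cone (isOpen_univ (X := Node I)) (mem_univ (t i))
        exact ⟨r, hr1, hr2, fun h => absurd h hi⟩
    choose r hr1 hr2 hr3 using hc
    exact ⟨r, hr1, hr2, fun u hu => hS fun i hi => hr3 i hi _ (hu i)⟩
  rw [IsNowhereDense, Set.eq_empty_iff_forall_notMem]
  intro w hw
  obtain ⟨r, -, -, hr⟩ := hcone isOpen_interior hw
  obtain ⟨s, hrs, hs⟩ := distributive g hg
    (O := fun n => {s : ι → Node I | ∀ u, s ≤ u → u ∉ F n}) (by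
    intro n s
    by_cases h : ∃ t, s ≤ t ∧ t ∈ F n
    · obtain ⟨t, h1, h2⟩ := h
      have h3 : ∃ U : Set (ι → Node I), IsOpen U ∧ t ∈ U ∧ ∀ u ∈ U, u ∈ F n → u = t := by
        have h4 : IsOpen ({⟨t, h2⟩} : Set (F n)) := by
          have := hF n
          exact isOpen_discrete _
        obtain ⟨U, hU1, hU2⟩ := isOpen_induced_iff.1 h4
        refine ⟨U, hU1, ?_, ?_⟩
        · have : (⟨t, h2⟩ : F n) ∈ (Subtype.val ⁻¹' U : Set (F n)) := by rw [hU2]; rfl
          exact this
        · intro u hu hu'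
          have : (⟨u, hu'⟩ : F n) ∈ (Subtype.val ⁻¹' U : Set (F n)) := hu
          rw [hU2] at this
          exact congrArg Subtype.val this
      obtain ⟨U, hU1, hU2, hU3⟩ := h3
      obtain ⟨r, hr1, hr2, hr3⟩ := hcone hU1 hU2
      refine ⟨r, h1.trans hr1, fun u hu hu' => ?_⟩
      have := hU3 u (hr3 u hu) hu'
      exact hr2 (Classical.arbitrary ι) (this ▸ hu (Classical.arbitrary ι))
    · refine ⟨s, le_rfl, fun u hu hu' => h ⟨u, hu, hu'⟩⟩) (by
    intro n s t hs hst u hu
    exact hs u (hst.trans hu)) r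
  have h5 : s ∈ closure (⋃ n, F n) := interior_subset (hr s hrs)
  obtain ⟨u, hu1, hu2⟩ := mem_closure_iff.1 h5 _ (isOpen_cones s) (le_refl s)
  obtain ⟨n, hn⟩ := mem_iUnion.1 hu2
  exact hs n u hu1 hn

end Pool.Agent.H2.DP
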