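import Mathlib
import Pool.Agent.H2.DP.Space

set_option autoImplicit false

open Cardinal Order Set Topology Pool.Agent.H764R3.Stat
open Pool.Agent.H764R3.Tree (Code Inc K)

namespace Pool.Agent.H2.DP

variable {I : Type} [Countable I] {ι : Type}

/-- `a` follows the tuple `P` for `m` steps, starting with `μ`, in the order `c`. -/
def Follow (c : ℕ → ι) (μ : K) (P : ι → Node I) (a : ℕ → K) (m : ℕ) : Prop :=
  a 0 = μ ∧ ∀ i < m, IsLeast {j | (P (c i)).y j ≠ none ∧ a i < j} (a (i + 1))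

theorem Follow.eq {c : ℕ → ι} {μ : K} {P Q R : ι → Node I} {a a' : ℕ → K} {m : ℕ}
    (hP : Follow c μ P a m) (hQ : Follow c μ Q a' m) (h1 : P ≤ R) (h2 : Q ≤ R) :
    ∀ i ≤ m, a i = a' i := by
  obtain ⟨ha0, ha1⟩ := hP
  obtain ⟨hc0, hc1⟩ := hQ
  intro i
  induction i with
  | zero => intro _; rw [ha0, hc0]
  | succ i ih =>
    intro hi
    have h3 := ih (by omega)
    have h4 := ha1 i (by omega)
    have h5 := hc1 i (by omega)
    have h6 : a (i + 1) ≤ (P (c i)).top := (P (c i)).hle _ h4.1.1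
    have h7 : a' (i + 1) ≤ (Q (c i)).top := (Q (c i)).hle _ h5.1.1
    rcases le_total (a (i + 1)) (a' (i + 1)) with h8 | h8
    · refine le_antisymm h8 (h5.2 ⟨?_, ?_⟩)
      · rw [h2 (c i) _ (h8.trans h7), ← h1 (c i) _ h6]
        exact h4.1.1
      · rw [← h3]; exact h4.1.2
    · refine le_antisymm (h4.2 ⟨?_, ?_⟩) h8
      · rw [h1 (c i) _ (h8.trans h6), ← h2 (c i) _ h7]
        exact h5.1.1
      · rw [h3]; exact h5.1.2

/-- The sequence stops after `m` steps, the last points are reached at the steps `σ b`. -/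
def Stop (c : ℕ → ι) (μ : K) (m : ℕ) (σ : ι → ℕ) (P : ι → Node I) : Prop :=
  ∃ a, Follow c μ P a m ∧ ∀ b, σ b ≤ m ∧ a (σ b) = (P b).top

theorem Stop.unique {c : ℕ → ι} {μ : K} {m : ℕ} {σ : ι → ℕ} {P Q R : ι → Node I}
    (hP : Stop c μ m σ P) (hQ : Stop c μ m σ Q) (h1 : P ≤ R) (h2 : Q ≤ R) : P = Q := by
  obtain ⟨a, ha, ha'⟩ := hP
  obtain ⟨a', hb, hb'⟩ := hQ
  funext b
  apply Node.eq_of_le (h1 b) (h2 b)
  rw [← (ha' b).2, ← (hb' b).2]
  exact ha.eq hb h1 h2 _ (ha' b).1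

theorem Follow.step [Finite ι] {c : ℕ → ι} {μ : K} {P : ι → Node I} {a : ℕ → K} {i : ℕ}
    (hF : Follow c μ P a i) (htop : (P (c i)).top ≤ a i) :
    ∃ Q a', P ≤ Q ∧ Follow c μ Q a' (i + 1) ∧ (∀ b, (Q b).top ≤ a' (i + 1)) ∧
      (∀ j ≤ i, a' j = a j) ∧ (Q (c i)).top = a' (i + 1) ∧ ∀ b, b ≠ c i → Q b = P b := by
  classical
  obtain ⟨β₀, hβ₀⟩ : ∃ β : K, ∀ b, (P b).top < β :=
    bounded (C := Code) ((Cardinal.mk_le_aleph0 (α := ι)).trans al) (fun b => (P b).top)
  obtain ⟨β, hβ⟩ := exists_gt (max (a i) β₀)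
  have hβ1 : a i < β := (le_max_left _ _).trans_lt hβ
  have hβ2 : ∀ b, (P b).top < β := fun b => (hβ₀ b).trans ((le_max_right _ _).trans_lt hβ)
  obtain ⟨s, hs1, hs2, -, hs4, -⟩ := (P (c i)).exists_succ β (hβ2 _) (P (c i)).code le_rfl
  let Q : ι → Node I := Function.update P (c i) s
  let a' : ℕ → K := Function.update a (i + 1) β
  have hQ1 : Q (c i) = s := Function.update_self ..
  have hQ2 : ∀ b, b ≠ c i → Q b = P b := fun b hb => Function.update_of_ne hb _ _
  have ha1 : a' (i + 1) = β := Function.update_self ..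
  have ha2 : ∀ j ≤ i, a' j = a j := fun j hj => Function.update_of_ne (by omega) _ _
  have hPQ : P ≤ Q := by
    intro b
    by_cases hb : b = c i
    · subst hb; rw [hQ1]; exact hs1
    · rw [hQ2 b hb]
  refine ⟨Q, a', hPQ, ⟨?_, ?_⟩, ?_, ha2, ?_, hQ2⟩
  · rw [ha2 0 (Nat.zero_le _)]; exact hF.1
  · intro j hj
    rcases Nat.lt_succ_iff_lt_or_eq.1 hj with hj | rfl
    · rw [ha2 j hj.le, ha2 (j + 1) hj]
      have h1 := hF.2 j hj
      have h2 : a (j + 1) ≤ (P (c j)).top := (P (c j)).hle _ h1.1.1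
      refine ⟨⟨?_, h1.1.2⟩, ?_⟩
      · rw [← hPQ (c j) _ h2]; exact h1.1.1
      · intro k hk
        by_cases hb : c j = c i
        · rw [hb] at h1 h2
          have h3 : s.y k ≠ none := by
            have := hk.1
            rw [hb, hQ1] at this
            exact this
          rcases hs4 k h3 with h4 | h4
          · rw [h4]; exact (h2.trans_lt (hβ2 _)).le
          · exact h1.2 ⟨h4, hk.2⟩
        · have h3 := hk.1
          rw [hQ2 _ hb] at h3
          exact h1.2 ⟨h3, hk.2⟩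
    · rw [ha2 j le_rfl, ha1]
      refine ⟨⟨?_, hβ1⟩, ?_⟩
      · rw [hQ1, ← hs2]; exact s.htop
      · intro k hk
        have h3 := hk.1
        rw [hQ1] at h3
        rcases hs4 k h3 with h4 | h4
        · exact h4.ge
        · exact absurd hk.2 (not_lt.2 (((P _).hle _ h4).trans htop))
  · intro b
    rw [ha1]
    by_cases hb : b = c i
    · subst hb; rw [hQ1, hs2]
    · rw [hQ2 b hb]; exact (hβ2 b).le
  · rw [hQ1, ha1, hs2]

theorem Follow.steps [Finite ι] {c : ℕ → ι} {μ : K} {P : ι → Node I} {a : ℕ → K} {i : ℕ}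
    (hF : Follow c μ P a i) (htop : (P (c i)).top ≤ a i) (t : ℕ) :
    ∃ Q a', P ≤ Q ∧ Follow c μ Q a' (i + 1 + t) ∧ (∀ b, (Q b).top ≤ a' (i + 1 + t)) ∧
      ∀ j, i ≤ j → j < i + 1 + t → ∃ l ≤ i + 1 + t, a' l = (Q (c j)).top := by
  induction t with
  | zero =>
    obtain ⟨Q, a', h1, h2, h3, h4, h5, h6⟩ := hF.step htop
    refine ⟨Q, a', h1, h2, h3, fun j hj1 hj2 => ⟨i + 1, le_rfl, ?_⟩⟩
    have : j = i := by omega
    subst this
    exact h5.symm
  | succ t ih =>
    obtain ⟨Q, a', h1, h2, h3, h4⟩ := ih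
    obtain ⟨Q', a'', g1, g2, g3, g4, g5, g6⟩ := h2.step (h3 _)
    refine ⟨Q', a'', h1.trans g1, g2, g3, fun j hj1 hj2 => ?_⟩
    by_cases hj : c j = c (i + 1 + t)
    · exact ⟨i + 1 + t + 1, le_rfl, by rw [hj]; exact g5.symm⟩
    · have hj' : j ≠ i + 1 + t := fun h => hj (by rw [h])
      obtain ⟨l, hl1, hl2⟩ := h4 j hj1 (by omega)
      exact ⟨l, by omega, by rw [g4 l hl1, hl2, g6 _ hj]⟩

theorem exists_stop [Finite ι] {c : ℕ → ι} (hc : ∀ b n, ∃ i, n ≤ i ∧ c i = b)
    (hI : ∀ f : ι → I, ¬ Function.Injective f) {p P : ι → Node I}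
    (hinc : ∀ b b', b ≠ b' → Inc (p b).code (p b').code) (hpP : p ≤ P) {μ : K}
    (hμ : ∀ b, (p b).top ≤ μ) : ∃ m σ Q, P ≤ Q ∧ Stop c μ m σ Q := by
  classical
  cases nonempty_fintype ι
  let nxt : ι → K → K := fun b k =>
    if hk : {j | (P b).y j ≠ none ∧ k < j}.Nonempty then wellFounded_lt.min _ hk else k
  have hnxt : ∀ b k, {j | (P b).y j ≠ none ∧ k < j}.Nonempty →
      IsLeast {j | (P b).y j ≠ none ∧ k < j} (nxt b k) := by
    intro b k hk
    have h1 : nxt b k = wellFounded_lt.min _ hk := dif_pos hk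
    rw [h1]
    exact ⟨wellFounded_lt.min_mem _ hk, fun j hj => not_lt.1 (wellFounded_lt.not_lt_min _ hj)⟩
  let a : ℕ → K := fun n => Nat.rec μ (fun n k => nxt (c n) k) n
  have ha : ∀ n, a (n + 1) = nxt (c n) (a n) := fun n => rfl
  have hex : ∃ n, ¬ {j | (P (c n)).y j ≠ none ∧ a n < j}.Nonempty := by
    by_contra hcon
    push Not at hcon
    have h1 : ∀ n, IsLeast {j | (P (c n)).y j ≠ none ∧ a n < j} (a (n + 1)) := fun n => by
      rw [ha]; exact hnxt _ _ (hcon n)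
    have hmono : StrictMono a := strictMono_nat_of_lt_succ fun n => (h1 n).1.2
    obtain ⟨δ, hδ⟩ := exists_lub a
    have hle : ∀ b : ι, ∃ i : I, (p b).code ≤ hh I δ i := by
      intro b
      obtain ⟨e, he1, he2⟩ := Filter.extraction_of_frequently_atTop
        (P := fun i => c i = b) (Filter.frequently_atTop.2 fun n => by
          obtain ⟨i, hi1, hi2⟩ := hc b n
          exact ⟨i, hi1, hi2⟩)
      have hη : StrictMono fun n => a (e n + 1) := fun m n hmn => by
        have h2 : e m + 1 < e n + 1 := Nat.succ_lt_succ (he1 hmn)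
        exact hmono h2
      have hy : ∀ n, (P b).y (a (e n + 1)) ≠ none := by
        intro n
        have := (h1 (e n)).1.1
        rw [he2 n] at this
        exact this
      have hlub : IsLUB (range fun n => a (e n + 1)) δ := by
        constructor
        · rintro _ ⟨n, rfl⟩
          exact hδ.1 ⟨e n + 1, rfl⟩
        · intro x hx
          apply hδ.2
          rintro _ ⟨n, rfl⟩
          have h2 : n ≤ e n + 1 := (he1.le_apply (x := n)).trans (Nat.le_succ _)
          exact (hmono.monotone h2).trans (hx ⟨n, rfl⟩)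
      obtain ⟨-, i, hi⟩ := (P b).lim _ hη hy δ hlub
      refine ⟨i, ?_⟩
      obtain ⟨d, hd⟩ := Option.ne_none_iff_exists'.1 (hy 0)
      refine le_trans ?_ (hi 0 d hd)
      refine (P b).mono (p b).top (a (e 0 + 1)) _ _ ?_ hd ?_
      · rw [← hpP b _ le_rfl]
        exact (p b).code_spec
      · have h6 : a 0 ≤ a (e 0 + 1) := hmono.monotone (Nat.zero_le (e 0 + 1))
        exact (hμ b).trans h6
    choose i hi using hle
    have hni := hI i
    unfold Function.Injective at hni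
    push Not at hni
    obtain ⟨b, b', hbb, hb⟩ := hni
    exact hinc b b' hb _ (hi b) (hbb ▸ hi b')
  let n := Nat.find hex
  have hn : ¬ {j | (P (c n)).y j ≠ none ∧ a n < j}.Nonempty := Nat.find_spec hex
  have hF : Follow c μ P a n := by
    refine ⟨rfl, fun i hi => ?_⟩
    have h1 := Nat.find_min hex hi
    rw [not_not] at h1
    rw [ha]
    exact hnxt _ _ h1
  have htop : (P (c n)).top ≤ a n := by
    rcases le_or_gt (P (c n)).top (a n) with hcon | hcon
    · exact hcon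
    · exact absurd ⟨_, (P (c n)).htop, hcon⟩ hn
  choose j hj1 hj2 using fun b => hc b n
  obtain ⟨Q, a', h1, h2, -, h3⟩ := hF.steps htop (Finset.univ.sup j)
  have h4 : ∀ b, ∃ l ≤ n + 1 + Finset.univ.sup j, a' l = (Q b).top := by
    intro b
    have h5 : j b ≤ Finset.univ.sup j := Finset.le_sup (Finset.mem_univ b)
    have h6 := h3 (j b) (hj1 b) (by omega)
    rw [hj2 b] at h6
    exact h6
  choose σ hσ1 hσ2 using h4
  exact ⟨_, σ, Q, h1, a', h2, fun b => ⟨hσ1 b, hσ2 b⟩⟩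

/-! ### Incompatible tuples -/

theorem exists_inc_tuple [Finite ι] (a : ι → Code) :
    ∃ a' : ι → Code, (∀ i, a i ≤ a' i) ∧ ∀ i j, i ≠ j → Inc (a' i) (a' j) := by
  classical
  have hctb : (⋃ i, (a i).dom).Countable := countable_iUnion fun i => (a i).ctb
  have hinf : ((⋃ i, (a i).dom)ᶜ : Set (ℕ → Bool)).Infinite := by
    intro hfin
    have hu : ¬ (univ : Set (ℕ → Bool)).Countable := by
      intro h
      have : #(univ : Set (ℕ → Bool)) ≤ ℵ₀ := Cardinal.le_aleph0_iff_set_countable.2 h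
      rw [mk_univ] at this
      have h2 : #(ℕ → Bool) = 2 ^ ℵ₀ := by simp
      rw [h2] at this
      exact absurd this (not_le.2 (cantor _))
    apply hu
    rw [← union_compl_self (⋃ i, (a i).dom)]
    exact hctb.union hfin.countable
  obtain ⟨x, hx1, hx2⟩ : ∃ x : ι → ℕ → Bool, Function.Injective x ∧ ∀ i j, x i ∉ (a j).dom := by
    have : Infinite ((⋃ i, (a i).dom)ᶜ : Set (ℕ → Bool)) := hinf.to_subtype
    cases nonempty_fintype ι
    let e := (Infinite.natEmbedding ((⋃ i, (a i).dom)ᶜ : Set (ℕ → Bool)))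
    refine ⟨fun i => (e (Fintype.equivFin ι i)).1, ?_, ?_⟩
    · intro i j hij
      have h1 := e.injective (Subtype.ext hij)
      exact (Fintype.equivFin ι).injective (Fin.ext h1)
    · intro i j h
      exact (e (Fintype.equivFin ι i)).2 (mem_iUnion.2 ⟨j, h⟩)
  refine ⟨fun i => ⟨range x ∪ (a i).dom, (countable_range x).union (a i).ctb,
    fun z => if z ∈ range x then decide (z = x i) else (a i).f z⟩, ?_, ?_⟩
  · intro i
    refine ⟨subset_union_right, fun z hz => ?_⟩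
    have h1 : z ∉ range x := by
      rintro ⟨j, rfl⟩
      exact hx2 j i hz
    show (a i).f z = if z ∈ range x then decide (z = x i) else (a i).f z
    rw [if_neg h1]
  · intro i j hij c h1 h2
    have h3 := h1.2 (x i) (Or.inl ⟨i, rfl⟩)
    have h4 := h2.2 (x i) (Or.inl ⟨i, rfl⟩)
    have h5 : x i ≠ x j := fun h => hij (hx1 h)
    have h3' : (if x i ∈ range x then decide (x i = x i) else (a i).f (x i)) = c.f (x i) := h3
    have h4' : (if x i ∈ range x then decide (x i = x j) else (a j).f (x i)) = c.f (x i) := h4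
    rw [if_pos ⟨i, rfl⟩] at h3' h4'
    rw [← h4'] at h3'
    simp [h5] at h3'

/-- Two tuples of nodes without common extension. -/
def Sep (P Q : ι → Node I) : Prop := ¬ ∃ R : ι → Node I, P ≤ R ∧ Q ≤ R

/-- A maximal family of pairwise incompatible tuples of nodes with incompatible codes. -/
theorem exists_family [Finite ι] : ∃ A : Set (ι → Node I),
    (∀ p ∈ A, ∀ b b', b ≠ b' → Inc (p b).code (p b').code) ∧ A.Pairwise Sep ∧
    ∀ P : ι → Node I, ∃ p ∈ A, ∃ Q : ι → Node I, P ≤ Q ∧ p ≤ Q := by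
  obtain ⟨A, hA⟩ := zorn_subset {A : Set (ι → Node I) |
    (∀ p ∈ A, ∀ b b', b ≠ b' → Inc (p b).code (p b').code) ∧ A.Pairwise Sep} (by
    intro c hc hchain
    refine ⟨⋃₀ c, ⟨?_, ?_⟩, fun s hs => subset_sUnion_of_mem hs⟩
    · rintro p ⟨s, hs, hp⟩
      exact (hc hs).1 p hp
    · rw [pairwise_sUnion hchain.directedOn]
      exact fun s hs => (hc hs).2)
  refine ⟨A, hA.prop.1, hA.prop.2, ?_⟩
  intro P
  by_contra hcon
  push Not at hcon
  -- extend `P` to a tuple with incompatible codes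
  obtain ⟨c, hc, hcd⟩ := exists_inc_tuple fun i => (P i).code
  have h0 : ∀ i, ∃ s : Node I, P i ≤ s ∧ s.code = c i := by
    intro i
    obtain ⟨β, hβ⟩ := exists_gt (P i).top
    obtain ⟨s, hs1, -, hs3, -, -⟩ := (P i).exists_succ β hβ (c i) (hc i)
    exact ⟨s, hs1, hs3⟩
  choose R hPR hR using h0
  have hmem : R ∈ A := by
    have h1 : insert R A ∈ {A : Set (ι → Node I) |
        (∀ p ∈ A, ∀ b b', b ≠ b' → Inc (p b).code (p b').code) ∧ A.Pairwise Sep} := by
      constructor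
      · intro p hp
        rcases hp with rfl | hp
        · intro b b' hb
          rw [hR, hR]; exact hcd b b' hb
        · exact hA.prop.1 p hp
      · refine hA.prop.2.insert fun q hq _ => ⟨?_, ?_⟩
        · rintro ⟨Q, h2, h3⟩
          exact hcon q hq Q (fun b => (hPR b).trans (h2 b)) h3
        · rintro ⟨Q, h2, h3⟩
          exact hcon q hq Q (fun b => (hPR b).trans (h3 b)) h2
    exact hA.le_of_ge h1 (subset_insert _ _) (mem_insert _ _)
  exact hcon R hmem R hPR le_rfl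

theorem exists_order (ι : Type) [Finite ι] [Nonempty ι] :
    ∃ c : ℕ → ι, ∀ b n, ∃ i, n ≤ i ∧ c i = b := by
  obtain ⟨f, hf⟩ := exists_surjective_nat (ι × ℕ)
  refine ⟨fun i => (f i).1, fun b n => ?_⟩
  choose g hg using fun k : ℕ => hf (b, k)
  have hinj : Function.Injective g := by
    intro k l h
    have h1 := hg k
    rw [h, hg l] at h1
    exact ((Prod.mk.inj h1).2).symm
  obtain ⟨m, ⟨k, rfl⟩, hm⟩ := (Set.infinite_range_of_injective hinj).exists_gt n
  refine ⟨g k, hm.le, ?_⟩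
  show (f (g k)).1 = b
  rw [hg k]

/-- The finite powers of the tree with more factors than guessed codes have a dense subset which is a
countable union of antichains. -/
theorem exists_antichains (I : Type) [Countable I] (ι : Type) [Finite ι] :
    ∃ J : ℕ × (ι → ℕ) → Set (ι → Node I),
    (∀ n, ∀ P ∈ J n, ∀ Q ∈ J n, ∀ R : ι → Node I, P ≤ R → Q ≤ R → P = Q) ∧
    ((∀ f : ι → I, ¬ Function.Injective f) → ∀ P : ι → Node I, ∃ n, ∃ Q ∈ J n, P ≤ Q) := by
  rcases isEmpty_or_nonempty ι with hι | hι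
  · refine ⟨fun _ => ∅, fun n P hP => absurd hP (notMem_empty _), fun h => ?_⟩
    exact absurd (Function.injective_of_subsingleton _) (h fun x => isEmptyElim x)
  obtain ⟨c, hc⟩ := exists_order ι
  obtain ⟨A, hA1, hA2, hA3⟩ := exists_family (I := I) (ι := ι)
  have hbd : ∀ p : ι → Node I, ∃ μ : K, ∀ b, (p b).top ≤ μ := by
    intro p
    obtain ⟨β, hβ⟩ : ∃ β : K, ∀ b, (p b).top < β :=
      bounded (C := Code) ((Cardinal.mk_le_aleph0 (α := ι)).trans al) (fun b => (p b).top)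
    exact ⟨β, fun b => (hβ b).le⟩
  choose μ hμ using hbd
  refine ⟨fun x => {P | ∃ p ∈ A, p ≤ P ∧ Stop c (μ p) x.1 x.2 P}, ?_, ?_⟩
  · rintro x P ⟨p, hp, hpP, hP⟩ Q ⟨q, hq, hqQ, hQ⟩ R hPR hQR
    have hpq : p = q := by
      by_contra hne
      exact hA2 hp hq hne ⟨R, hpP.trans hPR, hqQ.trans hQR⟩
    subst hpq
    exact hP.unique hQ hPR hQR
  · intro hI P
    obtain ⟨p, hp, Q, hPQ, hpQ⟩ := hA3 P
    obtain ⟨m, σ, R, hR1, hR2⟩ := exists_stop hc hI (hA1 p hp) hpQ (hμ p)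
    exact ⟨(m, σ), R, ⟨p, hp, hpQ.trans hR1, hR2⟩, hPQ.trans hR1⟩

/-- A space with a `σ`-disjoint `π`-base is D-separable. -/
theorem bigD_of {X : Type} [TopologicalSpace X] {Λ : Type} [Countable Λ] [Nonempty Λ]
    (𝒰 : Λ → Set (Set X)) (h1 : ∀ l, ∀ U ∈ 𝒰 l, IsOpen U ∧ U.Nonempty)
    (h2 : ∀ l, ∀ U ∈ 𝒰 l, ∀ V ∈ 𝒰 l, ∀ x, x ∈ U → x ∈ V → U = V)
    (h3 : ∀ W : Set X, IsOpen W → W.Nonempty → ∃ l, ∃ U ∈ 𝒰 l, U ⊆ W) : BigD X := by
  intro D hD
  obtain ⟨ν, hν⟩ := exists_surjective_nat Λ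
  have hz : ∀ (n : ℕ) (U : 𝒰 (ν n)), ∃ z ∈ D n, z ∈ U.1 := by
    intro n U
    obtain ⟨z, hz1, hz2⟩ := (hD n).inter_open_nonempty _ (h1 _ U.1 U.2).1 (h1 _ U.1 U.2).2
    exact ⟨z, hz2, hz1⟩
  choose z hz1 hz2 using hz
  refine ⟨fun n => range (z n), fun n => ⟨?_, ?_⟩, ?_⟩
  · rintro _ ⟨U, rfl⟩
    exact hz1 n U
  · rw [discreteTopology_iff_isOpen_singleton]
    rintro ⟨_, ⟨U, rfl⟩⟩
    rw [isOpen_induced_iff]
    refine ⟨U.1, (h1 _ U.1 U.2).1, ?_⟩
    ext ⟨_, ⟨V, rfl⟩⟩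
    constructor
    · intro h
      have h4 : z n V ∈ U.1 := h
      have h5 : V = U := Subtype.ext (h2 _ V.1 V.2 U.1 U.2 _ (hz2 n V) h4)
      subst h5
      rfl
    · intro h
      have h4 : z n V = z n U := congrArg Subtype.val h
      show z n V ∈ U.1
      rw [h4]
      exact hz2 n U
  · rw [dense_iff_inter_open]
    intro W hW hne
    obtain ⟨l, U, hU, hUW⟩ := h3 W hW hne
    obtain ⟨n, rfl⟩ := hν l
    exact ⟨z n ⟨U, hU⟩, hUW (hz2 n ⟨U, hU⟩), mem_iUnion.2 ⟨n, ⟨U, hU⟩, rfl⟩⟩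

/-- The finite powers with more factors than guessed codes are D-separable. -/
theorem bigD_finite [Finite ι] (hI : ∀ f : ι → I, ¬ Function.Injective f) :
    BigD (ι → Node I) := by
  classical
  obtain ⟨J, hJ1, hJ2⟩ := exists_antichains I ι
  apply bigD_of (fun n => (fun P : ι → Node I => {R : ι → Node I | P ≤ R}) '' J n)
  · rintro n _ ⟨P, -, rfl⟩
    exact ⟨isOpen_cones P, P, le_refl P⟩
  · rintro n _ ⟨P, hP, rfl⟩ _ ⟨Q, hQ, rfl⟩ R hPR hQR
    rw [hJ1 n P hP Q hQ R hPR hQR]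
  · rintro W hW ⟨w, hw⟩
    obtain ⟨S, u, hu, hS⟩ := isOpen_pi_iff.1 hW w hw
    have hc : ∀ b, ∃ r, (b ∈ S → ∀ v, r ≤ v → v ∈ u b) := by
      intro b
      by_cases hb : b ∈ S
      · obtain ⟨r, _, _, hr⟩ := exists_cone (hu b hb).1 (hu b hb).2
        exact ⟨r, fun _ => hr⟩
      · exact ⟨w b, fun h => absurd h hb⟩
    choose r hr using hc
    obtain ⟨n, Q, hQ, hle⟩ := hJ2 hI r
    refine ⟨n, _, ⟨Q, hQ, rfl⟩, fun R hR => hS fun b hb => ?_⟩
    have hR' : Q ≤ R := hR
    exact hr b hb _ ((hle b).trans (hR' b))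

/-! ### The infinite powers -/

/-- One-point nodes. -/
noncomputable def sg (I : Type) [Countable I] (β : K) : Node I :=
  (Node.exists_single (I := I) β (Classical.arbitrary Code)).choose

theorem sg_top (β : K) : (sg I β).top = β :=
  (Node.exists_single (I := I) β (Classical.arbitrary Code)).choose_spec.1

theorem sg_y (β k : K) (h : (sg I β).y k ≠ none) : k = β :=
  (Node.exists_single (I := I) β (Classical.arbitrary Code)).choose_spec.2.2 k h

theorem sg_inj {β γ : K} {u : Node I} (h1 : sg I β ≤ u) (h2 : sg I γ ≤ u) : β = γ := by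
  have key : ∀ {β γ : K}, sg I β ≤ u → sg I γ ≤ u → β ≤ γ → β = γ := by
    intro β γ h1 h2 hle
    apply sg_y (I := I)
    rw [h2 β (by rw [sg_top]; exact hle), ← h1 β (by rw [sg_top])]
    have h3 := (sg I β).htop
    rw [sg_top] at h3
    exact h3
  rcases le_total β γ with h | h
  · exact key h1 h2 h
  · exact (key h2 h1 h).symm

/-- The infinite powers with at most `|K|` factors are D-separable. -/
theorem bigD_infinite {κ : Type} [Infinite κ] (hκ : #κ ≤ #K) : BigD (κ → Node I) := by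
  classical
  let c : ℕ → κ := Infinite.natEmbedding κ
  have hc : Function.Injective c := (Infinite.natEmbedding κ).injective
  obtain ⟨ρ⟩ : #(Finset κ) ≤ #K := by rw [mk_finset_of_infinite]; exact hκ
  let V : (m : ℕ) → (F : Finset κ) → (F → Node I) → Set (κ → Node I) := fun m F s =>
    {R | (∀ b : F, s b ≤ R b) ∧ sg I (ρ F) ≤ R (c m) ∧
      ∀ b : F, sg I (s b).top ≤ R (c (m + 1 + F.equivFin b))}
  have hVo : ∀ m F s, IsOpen (V m F s) := by
    intro m F s
    have h1 : V m F s = (⋂ b : F, (fun R : κ → Node I => R b) ⁻¹' {v | s b ≤ v}) ∩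
        ((fun R : κ → Node I => R (c m)) ⁻¹' {v | sg I (ρ F) ≤ v} ∩
        ⋂ b : F, (fun R : κ → Node I => R (c (m + 1 + F.equivFin b))) ⁻¹'
          {v | sg I (s b).top ≤ v}) := by
      ext R
      simp only [V, mem_inter_iff, mem_iInter, mem_preimage, mem_ofPred_eq]
    rw [h1]
    refine IsOpen.inter (isOpen_iInter_of_finite fun b => ?_) (IsOpen.inter ?_
      (isOpen_iInter_of_finite fun b => ?_))
    · exact (isClopen_cone (s b)).isOpen.preimage (continuous_apply _)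
    · exact (isClopen_cone (sg I (ρ F))).isOpen.preimage (continuous_apply _)
    · exact (isClopen_cone (sg I (s b).top)).isOpen.preimage (continuous_apply _)
  apply bigD_of (Λ := ℕ) (fun m => {U | ∃ (F : Finset κ) (s : F → Node I),
    (∀ j, c j ∈ F → j < m) ∧ U = V m F s})
  · rintro m _ ⟨F, s, hF, rfl⟩
    refine ⟨hVo m F s, fun x => if h : x ∈ F then s ⟨x, h⟩ else if x = c m then sg I (ρ F) else
      if h : ∃ b : F, x = c (m + 1 + F.equivFin b) then sg I (s h.choose).top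
        else Classical.arbitrary _, fun b => ?_, ?_, fun b => ?_⟩
    · show s b ≤ dite _ _ _
      rw [dif_pos b.2]
    · show sg I (ρ F) ≤ dite _ _ _
      rw [dif_neg fun h => lt_irrefl _ (hF m h), if_pos rfl]
    · show sg I (s b).top ≤ dite _ _ _
      have hex : ∃ b' : F, c (m + 1 + F.equivFin b) = c (m + 1 + F.equivFin b') := ⟨b, rfl⟩
      rw [dif_neg fun h => by have := hF _ h; omega,
        if_neg fun h => by have := hc h; omega, dif_pos hex]
      have h1 := hc hex.choose_spec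
      have h2 : F.equivFin b = F.equivFin hex.choose := Fin.ext (by omega)
      rw [← F.equivFin.injective h2]
  · rintro m _ ⟨F, s, -, rfl⟩ _ ⟨G, t, -, rfl⟩ R ⟨h1, h2, h3⟩ ⟨g1, g2, g3⟩
    have hFG : F = G := ρ.injective (sg_inj h2 g2)
    subst hFG
    have hst : s = t := by
      funext b
      exact Node.eq_of_le (h1 b) (g1 b) (sg_inj (h3 b) (g3 b))
    rw [hst]
  · rintro W hW ⟨w, hw⟩
    obtain ⟨S, u, hu, hS⟩ := isOpen_pi_iff.1 hW w hw
    have hr : ∀ b : S, ∃ r, ∀ v, r ≤ v → v ∈ u b := by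
      intro b
      obtain ⟨r, _, _, hr⟩ := exists_cone (hu b b.2).1 (hu b b.2).2
      exact ⟨r, hr⟩
    choose r hr using hr
    obtain ⟨m, hm⟩ : ∃ m, ∀ j, c j ∈ S → j < m := by
      have hfin : (c ⁻¹' (S : Set κ)).Finite := S.finite_toSet.preimage hc.injOn
      obtain ⟨m, hm⟩ := hfin.bddAbove
      exact ⟨m + 1, fun j hj => Nat.lt_succ_of_le (hm hj)⟩
    exact ⟨m, _, ⟨S, r, hm, rfl⟩, fun R hR => hS fun b hb => hr ⟨b, hb⟩ _ (hR.1 ⟨b, hb⟩)⟩

theorem littleD_of_bigD {X : Type} [TopologicalSpace X] (h : BigD X) : LittleD X := by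
  obtain ⟨F, h1, h2⟩ := h (fun _ => univ) fun _ => dense_univ
  exact ⟨F, fun n => (h1 n).2, h2⟩

end Pool.Agent.H2.DP
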